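import Pool.Agent.helper65.GF.SpecG

set_option autoImplicit false

/-! # The half step `z f' = Q G h` from even to odd functions -/

namespace Pool.Agent.GD

open Finset Metric Filter Topology

theorem YSE_pair (a : ℕ → ℂ) (K : ℕ) :
    ∑ m ∈ range (2 * K), a m = ∑ l ∈ range K, (a (2 * l) + a (2 * l + 1)) := by
  induction K with
  | zero => simp
  | succ K ih =>
    rw [show 2 * (K + 1) = 2 * K + 1 + 1 by ring, Finset.sum_range_succ, Finset.sum_range_succ, ih,
      Finset.sum_range_succ]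
    ring

theorem YSE (h1 : YHD_stmt) (h2 : YM2_stmt) (h3 : YMA_stmt) (h4 : YPA_stmt) (h5 : YG1_stmt) (h6 : YG2_stmt) : YSE_stmt := by
  intro p G h f Q hg hh hf hf0 hQ hpos hev he
  obtain ⟨hd, hodd, Φ, c₀, hG, hc⟩ := hh
  obtain ⟨β, hβ, hgc⟩ := h5 G hg
  obtain ⟨q, κ, hq, hκ, hQc, hκq⟩ := h6 Q hQ hpos hev
  have hω : ∀ n, cv (ex (-1) β) (ex 1 β) n = dl n := by
    intro n
    rw [h_XEM.1, show (-1 : ℂ) + 1 = 0 by norm_num, h_XEM.2]
  have hD := h1 β κ hβ hκ
  obtain ⟨ps1, ps2, ps3, -⟩ := h4 p (ex 1 β) Φ hG (ex_zero 1 β)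
  obtain ⟨Ψ, hΨ, hstep⟩ := h2 p q (psh (ex 1 β) Φ) hq.1 (rgb_holds q hq) ps1 ps2
    (h3 p q κ (ex 1 β) (ex (-1) β) _ Φ hG hκq hω hD)
  -- the coefficients of `h`
  let c : ℕ → ℂ := fun m => if m = 0 then N2b689f5b.coeff h 0 else c₀ m
  have hhc : ∀ r, N2b689f5b.coeff h (2 * r) = ∑ m ∈ range (p + 1), c m * one0 Φ m r := by
    intro r
    rcases Nat.eq_zero_or_pos r with h0 | h0
    · subst h0
      rw [Finset.sum_range_succ']
      rw [Finset.sum_eq_zero (fun m _ => by
        have : one0 Φ (m + 1) 0 = 0 := by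
          unfold one0
          rw [if_neg (by omega)]
          exact hG.low (m + 1) 0 (by omega)
        rw [this, mul_zero])]
      simp [one0, c]
    · have hm := MUF_low p Φ (fun m => c (m - 1)) r h0
      simp only [Nat.add_sub_cancel] at hm
      rw [hm, hc r h0]
      unfold cmb
      refine Finset.sum_congr rfl fun m hm => ?_
      have h5 := (mem_Icc.1 hm).1
      change c₀ m * Φ m r = (if m = 0 then N2b689f5b.coeff h 0 else c₀ m) * Φ m r
      rw [if_neg (by omega)]
  -- the coefficients of `G h`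
  have hFo : ∀ k, ∑ m ∈ range (2 * k + 1 + 1), N2b689f5b.coeff h m * N2b689f5b.coeff G (2 * k + 1 - m) =
      deriv G 0 * cv (ex 1 β) (fun r => N2b689f5b.coeff h (2 * r)) k := by
    intro k
    rw [show 2 * k + 1 + 1 = 2 * (k + 1) by ring, YSE_pair]
    unfold cv
    rw [Finset.mul_sum]
    refine Finset.sum_congr rfl fun l hl => ?_
    have hl' := mem_range.1 hl
    rw [hodd l, zero_mul, add_zero, show 2 * k + 1 - 2 * l = 2 * (k - l) + 1 by omega, (hgc (k - l)).2]
    ring
  have hFe : ∀ k, ∑ m ∈ range (2 * k + 1), N2b689f5b.coeff h m * N2b689f5b.coeff G (2 * k - m) = 0 := by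
    intro k
    refine Finset.sum_eq_zero fun m hm => ?_
    have hm' := mem_range.1 hm
    rcases Nat.even_or_odd' m with ⟨l, hl | hl⟩
    · rw [show 2 * k - m = 2 * (k - l) by omega, (hgc (k - l)).1, mul_zero]
    · rw [hl, hodd l, zero_mul]
  have hcm : ∀ n, cmbh p (psh (ex 1 β) Φ) (fun m => Q 0 * deriv G 0 * c m) n =
      Q 0 * (deriv G 0 * cv (ex 1 β) (fun r => N2b689f5b.coeff h (2 * r)) n) := by
    intro n
    rw [ps3]
    unfold cv
    rw [Finset.mul_sum, Finset.mul_sum]
    refine Finset.sum_congr rfl fun r _ => ?_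
    have e : ∑ m ∈ range (p + 1), Q 0 * deriv G 0 * c m * one0 Φ m r =
        Q 0 * deriv G 0 * ∑ m ∈ range (p + 1), c m * one0 Φ m r := by
      rw [Finset.mul_sum]
      refine Finset.sum_congr rfl fun m _ => by ring
    beta_reduce
    rw [e, hhc r]
    ring
  -- the equation
  have s1 : Ser (fun n : ℕ => (n : ℂ) * N2b689f5b.coeff f n) (fun z => z * deriv f z) := (CO4 f _ (CO1 f hf)).2
  have s2 : Ser (fun n => ∑ m ∈ range (n + 1), N2b689f5b.coeff h m * N2b689f5b.coeff G (n - m))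
      (fun z => h z * G z) := CO3 h G _ _ (CO1 h hd) (CO1 G hg.starl.analytic)
  have s3 := CO3 _ Q _ _ s2 (CO1 Q hQ)
  have s4 : Ser (fun n : ℕ => (n : ℂ) * N2b689f5b.coeff f n) (fun z => h z * G z * Q z) := by
    intro z hz
    have h8 : HasSum (fun n : ℕ => (n : ℂ) * N2b689f5b.coeff f n * z ^ n) (z * deriv f z) := s1 z hz
    rw [he z hz, show Q z * (G z * h z) = h z * G z * Q z by ring] at h8
    exact h8
  have hcoef := CO2 _ _ _ s4 s3
  have hodd' : ∀ k : ℕ, (2 * (k : ℂ) + 1) * N2b689f5b.coeff f (2 * k + 1) =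
      cv q (cmbh p (psh (ex 1 β) Φ) (fun m => Q 0 * deriv G 0 * c m)) k := by
    intro k
    have h9 := congrFun hcoef (2 * k + 1)
    push_cast at h9
    rw [h9, show 2 * k + 1 + 1 = 2 * (k + 1) by ring, YSE_pair]
    unfold cv
    refine Finset.sum_congr rfl fun l hl => ?_
    have hl' := mem_range.1 hl
    rw [hFe l, zero_mul, zero_add, hFo l, show 2 * k + 1 - (2 * l + 1) = 2 * (k - l) by omega,
      (hQc (k - l)).1, hcm l]
    unfold cv
    ring
  have heven' : ∀ k : ℕ, N2b689f5b.coeff f (2 * k) = 0 := by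
    intro k
    rcases Nat.eq_zero_or_pos k with h0 | h0
    · subst h0
      unfold N2b689f5b.coeff
      simp [hf0]
    · have h9 := congrFun hcoef (2 * k)
      rw [Finset.sum_eq_zero] at h9
      · rcases mul_eq_zero.1 h9 with h10 | h10
        · exfalso
          have : (2 * k : ℕ) ≠ 0 := by omega
          exact this (by exact_mod_cast h10)
        · exact h10
      · intro m hm
        have hm' := mem_range.1 hm
        rcases Nat.even_or_odd' m with ⟨l, hl | hl⟩
        · subst hl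
          rw [hFe l, zero_mul]
        · rw [show 2 * k - m = 2 * (k - l - 1) + 1 by omega, (hQc (k - l - 1)).2, mul_zero]
  obtain ⟨c', hc'⟩ := hstep (fun m => Q 0 * deriv G 0 * c m) (fun k => N2b689f5b.coeff f (2 * k + 1)) hodd'
  exact ⟨hf, heven', Ψ, c', hΨ, hc'⟩

end Pool.Agent.GD
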